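import Pool.Agent.helper26.IM.SpecA

/-!
# Project im:, module GBL (helper78): generic blocks
-/

set_option autoImplicit false

open Finset Pool.Agent.RRank Pool.Agent.helper35.MR

namespace Pool.Agent.helper26.IM

theorem GBL_pad {X K ι : Type} [Field K] [Fintype ι] (f : ι → X → K) (r : ℕ)
    (h : Fintype.card ι ≤ r) : ∃ P : Fin r → X → K, ∀ i, ∃ j, P j = f i := by
  have h1 : Nonempty (ι ↪ Fin r) :=
    Function.Embedding.nonempty_of_card_le (by rw [Fintype.card_fin]; exact h)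
  obtain ⟨e⟩ := h1
  exact ⟨Function.extend e f 0, fun i => ⟨e i, e.injective.extend_apply f 0 i⟩⟩

/-- exchange of the first two directions -/
def GBL_sw {m : ℕ} {X Y Z K : Type} (b : Blk m X Y Z K) : Blk m Y X Z K :=
  ⟨b.y, b.x, b.z, b.ν, b.μ, b.ω⟩

/-- exchange of the first and the third direction -/
def GBL_sw3 {m : ℕ} {X Y Z K : Type} (b : Blk m X Y Z K) : Blk m Z Y X K :=
  ⟨b.z, b.y, b.x, b.ω, b.ν, b.μ⟩

theorem GBL_circ {m r : ℕ} {X Y Z K : Type} [Field K] {PX : Fin r → X → K} {PY : Fin r → Y → K}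
    {PZ : Fin r → Z → K} {b : Blk m X Y Z K} (h : Blk.Circ PX PY PZ b) :
    Blk.Circ PY PX PZ (GBL_sw b) := ⟨h.2.1, h.1, h.2.2⟩

theorem GBL_circ3 {m r : ℕ} {X Y Z K : Type} [Field K] {PX : Fin r → X → K} {PY : Fin r → Y → K}
    {PZ : Fin r → Z → K} {b : Blk m X Y Z K} (h : Blk.Circ PX PY PZ b) :
    Blk.Circ PZ PY PX (GBL_sw3 b) := ⟨h.2.2, h.2.1, h.1⟩

theorem GBL_val {m : ℕ} {X Y Z K : Type} [Field K] (T : X → Y → Z → K)
    (b b' b'' : Blk m X Y Z K) :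
    Blk.val (fun y x z => T x y z) (GBL_sw b) (GBL_sw b') (GBL_sw b'') = Blk.val T b' b b'' := by
  show ∑ e, ∑ f, ∑ g, b.ν e * b'.μ f * b''.ω g * T (b'.x f) (b.y e) (b''.z g) =
    ∑ e, ∑ f, ∑ g, b'.μ e * b.ν f * b''.ω g * T (b'.x e) (b.y f) (b''.z g)
  rw [Finset.sum_comm]
  exact Finset.sum_congr rfl fun e _ => Finset.sum_congr rfl fun f _ =>
    Finset.sum_congr rfl fun g _ => by ring

theorem GBL_val3 {m : ℕ} {X Y Z K : Type} [Field K] (T : X → Y → Z → K)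
    (b b' b'' : Blk m X Y Z K) :
    Blk.val (fun z y x => T x y z) (GBL_sw3 b) (GBL_sw3 b') (GBL_sw3 b'') =
      Blk.val T b'' b' b := by
  show ∑ e, ∑ f, ∑ g, b.ω e * b'.ν f * b''.μ g * T (b''.x g) (b'.y f) (b.z e) =
    ∑ e, ∑ f, ∑ g, b''.μ e * b'.ν f * b.ω g * T (b''.x e) (b'.y f) (b.z g)
  rw [show (∑ e, ∑ f, ∑ g, b.ω e * b'.ν f * b''.μ g * T (b''.x g) (b'.y f) (b.z e)) =
    ∑ e, ∑ g, ∑ f, b.ω e * b'.ν f * b''.μ g * T (b''.x g) (b'.y f) (b.z e) from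
      Finset.sum_congr rfl fun e _ => Finset.sum_comm]
  rw [Finset.sum_comm]
  refine Finset.sum_congr rfl fun g _ => ?_
  rw [Finset.sum_comm]
  exact Finset.sum_congr rfl fun f _ => Finset.sum_congr rfl fun e _ => by ring

theorem GBL (hU : UBL_stmt) (hZ : ZER_stmt) : GBL_stmt := by
  intro K _ X Y Z T 𝓊 𝓋 𝓌 hL h1 h2 h3
  obtain ⟨p, β, γ, d, L, h1⟩ := h1
  obtain ⟨p', β', γ', d', L', h2⟩ := h2
  obtain ⟨p'', β'', γ'', d'', L'', h3⟩ := h3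
  obtain ⟨PX, hPX⟩ := GBL_pad (Sum.elim (Sum.elim L β') γ'')
    (d + p + (d' + p') + (d'' + p'')) (by
      rw [Fintype.card_sum, Fintype.card_sum, Fintype.card_fin, Fintype.card_fin,
        Fintype.card_fin]; omega)
  obtain ⟨PY, hPY⟩ := GBL_pad (Sum.elim (Sum.elim β L') β'')
    (d + p + (d' + p') + (d'' + p'')) (by
      rw [Fintype.card_sum, Fintype.card_sum, Fintype.card_fin, Fintype.card_fin,
        Fintype.card_fin]; omega)
  obtain ⟨PZ, hPZ⟩ := GBL_pad (Sum.elim (Sum.elim γ γ') L'')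
    (d + p + (d' + p') + (d'' + p'')) (by
      rw [Fintype.card_sum, Fintype.card_sum, Fintype.card_fin, Fintype.card_fin,
        Fintype.card_fin]; omega)
  obtain ⟨𝒰, hc, hx, hy, hz⟩ := hU K X Y Z T _ PX PY PZ 𝓊 𝓋 𝓌 hL
  refine ⟨_, PX, PY, PZ, 𝒰, hc, fun b' b'' hb' hb'' => ?_⟩
  obtain ⟨X', hX', hXv⟩ := hZ K X Y Z T 𝓊 p β γ d L h1 _ _ PX PY PZ
    (fun i => hPX (Sum.inl (Sum.inl i))) (fun i => hPY (Sum.inl (Sum.inl i)))
    (fun i => hPZ (Sum.inl (Sum.inl i))) b' b'' hb' hb''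
  obtain ⟨Y', hY', hYv⟩ := hZ K Y X Z (fun y x z => T x y z) 𝓋 p' β' γ' d' L' h2 _ _ PY PX PZ
    (fun i => hPY (Sum.inl (Sum.inr i))) (fun i => hPX (Sum.inl (Sum.inr i)))
    (fun i => hPZ (Sum.inl (Sum.inr i))) (GBL_sw b') (GBL_sw b'') (GBL_circ hb') (GBL_circ hb'')
  obtain ⟨Z', hZ', hZv⟩ := hZ K Z Y X (fun z y x => T x y z) 𝓌 p'' β'' γ'' d'' L'' h3 _ _
    PZ PY PX
    (fun i => hPZ (Sum.inr i)) (fun i => hPY (Sum.inr i))
    (fun i => hPX (Sum.inr i)) (GBL_sw3 b'') (GBL_sw3 b') (GBL_circ3 hb'') (GBL_circ3 hb')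
  filter_upwards [hc, hx X' hX', hy Y' hY', hz Z' hZ'] with b hb hbx hby hbz
  refine ⟨hXv b hb.1 hbx, ?_, ?_⟩
  · rw [← GBL_val]
    exact hYv (GBL_sw b) (GBL_circ hb.1) hby
  · rw [← GBL_val3]
    exact hZv (GBL_sw3 b) (GBL_circ3 hb.1) hbz

end Pool.Agent.helper26.IM
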