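import Pool.Agent.helper26.IM.SpecA

/-!
# Project im:, module UBL (helper78): the ultrafilter on blocks
-/

set_option autoImplicit false

open Finset Pool.Agent.RRank Pool.Agent.helper35.MR

namespace Pool.Agent.helper26.IM

/-- the blocks of EXB -/
def UBL_set {K X Y Z : Type} [Field K] (T : X → Y → Z → K) (r : ℕ)
    (PX : Fin r → X → K) (PY : Fin r → Y → K) (PZ : Fin r → Z → K) (X' : Set X) (Y' : Set Y)
    (Z' : Set Z) : Set (Blk (r + 1) X Y Z K) :=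
  {b | (Blk.Circ PX PY PZ b ∧ Blk.val T b b b ≠ 0) ∧ (∀ e, b.x e ∈ X') ∧ (∀ e, b.y e ∈ Y') ∧
    ∀ e, b.z e ∈ Z'}

/-- the filter -/
def UBL_fil {K X Y Z : Type} [Field K] (T : X → Y → Z → K) (r : ℕ)
    (PX : Fin r → X → K) (PY : Fin r → Y → K) (PZ : Fin r → Z → K) (𝓊 : Ultrafilter X)
    (𝓋 : Ultrafilter Y) (𝓌 : Ultrafilter Z) : Filter (Blk (r + 1) X Y Z K) where
  sets := {S | ∃ X' ∈ 𝓊, ∃ Y' ∈ 𝓋, ∃ Z' ∈ 𝓌, UBL_set T r PX PY PZ X' Y' Z' ⊆ S}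
  univ_sets := ⟨Set.univ, Filter.univ_mem, Set.univ, Filter.univ_mem, Set.univ, Filter.univ_mem,
    Set.subset_univ _⟩
  sets_of_superset := by
    rintro S S' ⟨X', hX, Y', hY, Z', hZ, h⟩ hS
    exact ⟨X', hX, Y', hY, Z', hZ, h.trans hS⟩
  inter_sets := by
    rintro S S' ⟨X', hX, Y', hY, Z', hZ, h⟩ ⟨X'', hX', Y'', hY', Z'', hZ', h'⟩
    refine ⟨X' ∩ X'', Filter.inter_mem hX hX', Y' ∩ Y'', Filter.inter_mem hY hY', Z' ∩ Z'',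
      Filter.inter_mem hZ hZ', fun b hb => ⟨h ?_, h' ?_⟩⟩
    · exact ⟨hb.1, fun e => (hb.2.1 e).1, fun e => (hb.2.2.1 e).1, fun e => (hb.2.2.2 e).1⟩
    · exact ⟨hb.1, fun e => (hb.2.1 e).2, fun e => (hb.2.2.1 e).2, fun e => (hb.2.2.2 e).2⟩

theorem UBL (hE : EXB_stmt) : UBL_stmt := by
  intro K _ X Y Z T r PX PY PZ 𝓊 𝓋 𝓌 hL
  have hne : (UBL_fil T r PX PY PZ 𝓊 𝓋 𝓌).NeBot := by
    refine Filter.neBot_iff.2 fun h0 => ?_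
    have h1 : (∅ : Set _) ∈ UBL_fil T r PX PY PZ 𝓊 𝓋 𝓌 := by
      rw [h0]
      exact Filter.mem_bot
    obtain ⟨X', hX, Y', hY, Z', hZ, h⟩ := h1
    obtain ⟨b, hb, hx, hy, hz, hv⟩ := hE K X Y Z T r PX PY PZ 𝓊 𝓋 𝓌 hL X' hX Y' hY Z' hZ
    exact h (show b ∈ UBL_set T r PX PY PZ X' Y' Z' from ⟨⟨hb, hv⟩, hx, hy, hz⟩)
  refine ⟨Ultrafilter.of (UBL_fil T r PX PY PZ 𝓊 𝓋 𝓌), ?_, ?_, ?_, ?_⟩
  · refine Ultrafilter.of_le _ ?_
    exact ⟨Set.univ, Filter.univ_mem, Set.univ, Filter.univ_mem, Set.univ, Filter.univ_mem,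
      fun b hb => hb.1⟩
  · intro X' hX'
    refine Ultrafilter.of_le _ ?_
    exact ⟨X', hX', Set.univ, Filter.univ_mem, Set.univ, Filter.univ_mem, fun b hb => hb.2.1⟩
  · intro Y' hY'
    refine Ultrafilter.of_le _ ?_
    exact ⟨Set.univ, Filter.univ_mem, Y', hY', Set.univ, Filter.univ_mem, fun b hb => hb.2.2.1⟩
  · intro Z' hZ'
    refine Ultrafilter.of_le _ ?_
    exact ⟨Set.univ, Filter.univ_mem, Set.univ, Filter.univ_mem, Z', hZ', fun b hb => hb.2.2.2⟩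

end Pool.Agent.helper26.IM
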